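import Mathlib

/-! # MP_f155e9_co: shadows of small families

`shadow_growth`: a family `V` of `m`-subsets of an `n`-set with at most `C(N, m)` members,
`N ≤ n`, satisfies `m |V| ≤ (N - m + 1) |∂V|` (the local LYM inequality with `N` in the place
of `n`). Proof: Kruskal-Katona, and the initial segment of colex of size `|V|` consists of
subsets of the first `N` points. -/

set_option autoImplicit false

namespace Pool.Agent.OFK44

open Finset
open scoped FinsetFamily

/-- initial segments of colex of every size -/
theorem exists_isInitSeg_card (n r t : ℕ) (ht : t ≤ n.choose r) :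
    ∃ C : Finset (Finset (Fin n)), Colex.IsInitSeg C r ∧ C.card = t := by
  induction t with
  | zero => exact ⟨∅, Colex.isInitSeg_empty, card_empty⟩
  | succ t ih =>
    obtain ⟨C, hC, hCt⟩ := ih (by omega)
    have hCs : C ⊆ powersetCard r univ := fun A hA =>
      mem_powersetCard.2 ⟨subset_univ _, hC.1 hA⟩
    have hlt : C.card < (powersetCard r (univ : Finset (Fin n))).card := by
      rw [card_powersetCard, card_univ, Fintype.card_fin]; omega
    have hne : (powersetCard r (univ : Finset (Fin n)) \ C).Nonempty := by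
      rw [← card_pos, card_sdiff_of_subset hCs]; omega
    obtain ⟨s, hs, hmin⟩ := exists_min_image _ (fun s => toColex s) hne
    rw [mem_sdiff, mem_powersetCard] at hs
    refine ⟨insert s C, ⟨?_, ?_⟩, ?_⟩
    · intro A hA
      rw [mem_coe, mem_insert] at hA
      rcases hA with rfl | hA
      · exact hs.1.2
      · exact hC.1 hA
    · intro A B hA hB
      rw [mem_insert] at hA ⊢
      by_contra hcon
      push Not at hcon
      have hBm : B ∈ powersetCard r (univ : Finset (Fin n)) \ C :=
        mem_sdiff.2 ⟨mem_powersetCard.2 ⟨subset_univ _, hB.2⟩, hcon.2⟩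
      rcases hA with rfl | hA
      · exact absurd hB.1 (not_lt.2 (hmin B hBm))
      · exact hcon.2 (hC.2 hA hB)
    · rw [card_insert_of_notMem hs.2, hCt]

/-- the first `N` points -/
def firstN (n N : ℕ) : Finset (Fin n) := univ.filter (fun x => x.val < N)

theorem card_firstN {n N : ℕ} (hN : N ≤ n) : (firstN n N).card = N := by
  have h : firstN n N = (univ : Finset (Fin N)).map (Fin.castLEEmb hN) := by
    ext x
    simp only [firstN, mem_filter, mem_univ, true_and, mem_map, Fin.castLEEmb_apply]
    constructor
    · intro hx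
      exact ⟨⟨x.val, hx⟩, by ext; simp⟩
    · rintro ⟨y, rfl⟩
      simp
  rw [h, card_map, card_univ, Fintype.card_fin]

theorem isInitSeg_firstN (n N r : ℕ) :
    Colex.IsInitSeg (powersetCard r (firstN n N)) r := by
  refine ⟨fun A hA => (mem_powersetCard.1 hA).2, ?_⟩
  rintro A B hA ⟨h1, h2⟩
  rw [mem_powersetCard] at hA ⊢
  refine ⟨fun t ht => ?_, h2⟩
  have h3 : toColex (image Fin.val B) < toColex (image Fin.val A) := by
    rwa [Colex.toColex_image_lt_toColex_image Fin.val_strictMono]
  rw [firstN, mem_filter]
  refine ⟨mem_univ _, ?_⟩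
  refine Colex.forall_lt_mono h3.le ?_ t.val (mem_image.2 ⟨t, ht, rfl⟩)
  intro b hb
  rw [mem_image] at hb
  obtain ⟨a, ha, rfl⟩ := hb
  have h4 := hA.1 ha
  rw [firstN, mem_filter] at h4
  exact h4.2

/-- local LYM inside a subset `R` -/
theorem local_lym_subset {α : Type*} [DecidableEq α] {R : Finset α} {m : ℕ}
    {V : Finset (Finset α)} (hV : V ⊆ powersetCard m R) :
    V.card * m ≤ (∂ V).card * (R.card - m + 1) := by
  refine card_mul_le_card_mul' (· ⊆ ·) (fun s hs => ?_) (fun s hs => ?_)
  · have hsc : s.card = m := (mem_powersetCard.1 (hV hs)).2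
    rw [← hsc, ← card_image_of_injOn s.erase_injOn]
    refine card_le_card ?_
    intro t ht
    rw [mem_image] at ht
    obtain ⟨a, ha, rfl⟩ := ht
    rw [mem_bipartiteBelow]
    exact ⟨erase_mem_shadow hs ha, erase_subset _ _⟩
  · obtain ⟨t, ht, a, ha, rfl⟩ := mem_shadow_iff.1 hs
    have ht' := mem_powersetCard.1 (hV ht)
    have hcard : (t.erase a).card = m - 1 := by rw [card_erase_of_mem ha, ht'.2]
    have hm : 1 ≤ m := by rw [← ht'.2]; exact card_pos.2 ⟨a, ha⟩
    have hmR : m ≤ R.card := by rw [← ht'.2]; exact card_le_card ht'.1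
    have hsub : bipartiteAbove (· ⊆ ·) V (t.erase a) ⊆
        (R \ t.erase a).image (fun b => insert b (t.erase a)) := by
      intro u hu
      rw [mem_bipartiteAbove] at hu
      have hu' := mem_powersetCard.1 (hV hu.1)
      have h1 : (u \ t.erase a).card = 1 := by
        rw [card_sdiff_of_subset hu.2, hu'.2, hcard]; omega
      obtain ⟨b, hb⟩ := card_eq_one.1 h1
      have hb1 : b ∈ u \ t.erase a := by rw [hb]; exact mem_singleton_self b
      rw [mem_image]
      refine ⟨b, mem_sdiff.2 ⟨hu'.1 (mem_sdiff.1 hb1).1, (mem_sdiff.1 hb1).2⟩, ?_⟩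
      rw [insert_eq, ← hb, sdiff_union_of_subset hu.2]
    refine (card_le_card hsub).trans (card_image_le.trans ?_)
    rw [card_sdiff_of_subset ((erase_subset _ _).trans ht'.1), hcard]
    omega

/-- GROWTH: shadows of small families grow as in `C([N], m)` -/
theorem shadow_growth {n m N : ℕ} (hN : N ≤ n) {V : Finset (Finset (Fin n))}
    (hV : (V : Set (Finset (Fin n))).Sized m) (hc : V.card ≤ N.choose m) :
    V.card * m ≤ (∂ V).card * (N - m + 1) := by
  have hc' : V.card ≤ n.choose m := hc.trans (Nat.choose_le_choose m hN)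
  obtain ⟨C, hC, hCc⟩ := exists_isInitSeg_card n m V.card hc'
  have h1 : (∂ C).card ≤ (∂ V).card := kruskal_katona hV hCc.le hC
  have h2 : C ⊆ powersetCard m (firstN n N) := by
    rcases hC.total (isInitSeg_firstN n N m) with h | h
    · exact h
    · have h3 : (powersetCard m (firstN n N)).card = N.choose m := by
        rw [card_powersetCard, card_firstN hN]
      rw [eq_of_subset_of_card_le h (by rw [h3, hCc]; exact hc)]
  have h3 := local_lym_subset h2
  rw [card_firstN hN, hCc] at h3
  exact h3.trans (Nat.mul_le_mul_right _ h1)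

end Pool.Agent.OFK44
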