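import Mathlib

/-! # MP_f155e9_co: binomial coefficients near the middle, a numerical lemma

`choose_le_pow_mul`: `C(n, m) ≤ 2 ^ (3 k + 3) C(n - 3 k, m)` for `2 m ≤ n + 4` and
`24 k ^ 2 + 16 k + 4 ≤ n`. -/

set_option autoImplicit false

namespace Pool.Agent.OFK44

theorem choose_step {t m : ℕ} (hm : m < t) : t.choose m * (t - m) = t * (t - 1).choose m := by
  obtain ⟨s, rfl⟩ : ∃ s, t = s + 1 := ⟨t - 1, by omega⟩
  have h2 := Nat.choose_succ_right_eq (s + 1) m
  have h3 := Nat.add_one_mul_choose_eq s m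
  rw [Nat.add_sub_cancel]
  rw [← h2, ← h3]

theorem choose_mul_pow_le (n m D : ℕ) : ∀ j : ℕ, m + D + j ≤ n →
    n.choose m * D ^ j ≤ n ^ j * (n - j).choose m := by
  intro j
  induction j with
  | zero => intro _; simp
  | succ j ih =>
    intro hj
    have h1 := ih (by omega)
    rcases Nat.eq_zero_or_pos D with hD | hD
    · subst hD; simp
    have h2 := choose_step (t := n - j) (m := m) (by omega)
    have h3 : (n - j).choose m * D ≤ n * (n - (j + 1)).choose m := by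
      calc (n - j).choose m * D ≤ (n - j).choose m * (n - j - m) :=
            Nat.mul_le_mul_left _ (by omega)
        _ = (n - j) * (n - j - 1).choose m := h2
        _ ≤ n * (n - (j + 1)).choose m := by
            rw [Nat.sub_sub]
            exact Nat.mul_le_mul_right _ (by omega)
    calc n.choose m * D ^ (j + 1) = (n.choose m * D ^ j) * D := by ring
      _ ≤ (n ^ j * (n - j).choose m) * D := Nat.mul_le_mul_right _ h1
      _ = n ^ j * ((n - j).choose m * D) := by ring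
      _ ≤ n ^ j * (n * (n - (j + 1)).choose m) := Nat.mul_le_mul_left _ h3
      _ = n ^ (j + 1) * (n - (j + 1)).choose m := by ring

theorem pow_le_pow_of_large {n k D : ℕ} (hn : 24 * k ^ 2 + 16 * k + 4 ≤ n)
    (hD : n ≤ 2 * D + 6 * k + 4) : n ^ (3 * k) ≤ 2 ^ (3 * k + 3) * D ^ (3 * k) := by
  have hn0 : (0 : ℝ) < n := by
    have : 0 < n := by omega
    exact_mod_cast this
  have hn' : 24 * (k : ℝ) ^ 2 + 16 * k + 4 ≤ n := by exact_mod_cast hn
  have hD' : (n : ℝ) ≤ 2 * D + 6 * k + 4 := by exact_mod_cast hD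
  have hk : (0 : ℝ) ≤ k := Nat.cast_nonneg k
  have h1 : -2 ≤ -((6 * (k : ℝ) + 4) / n) := by
    rw [neg_le_neg_iff, div_le_iff₀ hn0]
    nlinarith
  have h2 := one_add_mul_le_pow h1 (3 * k)
  have h3 : (1 : ℝ) / 8 ≤ 1 + ((3 * k : ℕ) : ℝ) * (-((6 * (k : ℝ) + 4) / n)) := by
    push_cast
    have h4 : 3 * (k : ℝ) * ((6 * k + 4) / n) ≤ 7 / 8 := by
      rw [mul_div_assoc', div_le_iff₀ hn0]
      nlinarith
    linarith
  have h5 : 0 ≤ 1 + -((6 * (k : ℝ) + 4) / n) := by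
    have : (6 * (k : ℝ) + 4) / n ≤ 1 := by
      rw [div_le_one hn0]
      nlinarith
    linarith
  have h6 : 1 + -((6 * (k : ℝ) + 4) / n) ≤ 2 * D / n := by
    rw [le_div_iff₀ hn0]
    have : (1 + -((6 * (k : ℝ) + 4) / n)) * n = n - (6 * k + 4) := by
      field_simp
      ring
    rw [this]
    linarith
  have h7 : (1 : ℝ) / 8 ≤ (2 * D / n) ^ (3 * k) :=
    (h3.trans h2).trans (pow_le_pow_left₀ h5 h6 _)
  rw [div_pow, le_div_iff₀ (pow_pos hn0 _), mul_pow] at h7
  have h8 : (n : ℝ) ^ (3 * k) ≤ 2 ^ (3 * k + 3) * (D : ℝ) ^ (3 * k) := by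
    have : (2 : ℝ) ^ (3 * k + 3) = 8 * 2 ^ (3 * k) := by ring
    rw [this]
    linarith
  exact_mod_cast h8

/-- `C(n, m) ≤ 2 ^ (3 k + 3) C(n - 3 k, m)` near the middle, for large `n` -/
theorem choose_le_pow_mul {n k m : ℕ} (hn : 24 * k ^ 2 + 16 * k + 4 ≤ n) (hm : 2 * m ≤ n + 4) :
    n.choose m ≤ 2 ^ (3 * k + 3) * (n - 3 * k).choose m := by
  rcases Nat.eq_zero_or_pos k with hk | hk
  · subst hk
    simp only [mul_zero, zero_add, Nat.sub_zero]
    exact Nat.le_mul_of_pos_left _ (by norm_num)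
  have hk2 : k ≤ k ^ 2 := Nat.le_self_pow (by norm_num) k
  have hmk : m + 3 * k < n := by nlinarith
  obtain ⟨D, hD⟩ : ∃ D, n = m + D + 3 * k := ⟨n - 3 * k - m, by omega⟩
  have hD0 : 0 < D := by omega
  have h1 := choose_mul_pow_le n m D (3 * k) (by omega)
  have h2 := pow_le_pow_of_large (D := D) hn (by omega)
  have h3 : n.choose m * D ^ (3 * k) ≤ 2 ^ (3 * k + 3) * (n - 3 * k).choose m * D ^ (3 * k) := by
    calc n.choose m * D ^ (3 * k) ≤ n ^ (3 * k) * (n - 3 * k).choose m := h1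
      _ ≤ 2 ^ (3 * k + 3) * D ^ (3 * k) * (n - 3 * k).choose m := Nat.mul_le_mul_right _ h2
      _ = 2 ^ (3 * k + 3) * (n - 3 * k).choose m * D ^ (3 * k) := by ring
  exact Nat.le_of_mul_le_mul_right h3 (pow_pos hD0 _)

end Pool.Agent.OFK44
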